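import Pool.Agent.U918.LP.Seqs

/-!
# `p_{kn} + 2 h` prime for almost all `h`, for ALL `n` at once, with arbitrary weights on the `k`

The question is on the primes `p_{kn} + 2`, `k ≤ n`, where `p_j` is the `j`-th prime. For every `n ≥ 1` let `w_n` be ANY
bounded real weight on the integers `k ≥ 1`, for example the indicator of an arbitrary set. For all but a share
`log ^ (-U) X` of the vectors `(h₁, …, h_r)` of integers `1 ≤ h_i ≤ B X`, one has for ALL `n ≥ 1` simultaneously: the sum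
of `w_n k` over the `k` with `p_{kn} ≤ y` for which all the numbers `p_{kn} + 2 h_i` are prime is the sum of
`w_n k ∏ 1 / (V z log (p_{kn} + 2 h_i))` over those `k` for which all the numbers `p_{kn} + 2 h_i` are free of primes
`≤ z`, up to an error `X / log ^ D X`; here `z` is a power of `log X`, `V z = ∏_{l ≤ z} (1 - 1/l)`, and this holds
simultaneously for all `y ≤ X` and all residue classes of `p_{kn}` to all moduli up to `log ^ K X`. The condition of the
question is `h = 1`.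
-/

set_option autoImplicit false

open Finset

namespace Pool.Agent.Results.MP_be93de_nt.ArbitraryWeights

/-- the product of `1 - 1/l` over the primes `l ≤ z` -/
noncomputable def V (z : ℕ) : ℝ := ∏ l ∈ (Icc 1 z).filter Nat.Prime, (1 - 1 / (l : ℝ))

/-- the `m`-th prime -/
noncomputable def p (m : ℕ) : ℕ := Nat.nth Nat.Prime (m - 1)

open Classical in
/-- the sum of `w k` over the `k ≥ 1` with `p_{kn} ≤ y`, `p_{kn} ≡ a mod q`, for which all the numbers `p_{kn} + 2 h i`
are prime (here `k ≤ p_{kn}`) -/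
noncomputable def primeSum {r : ℕ} (n : ℕ) (w : ℕ → ℝ) (h : Fin r → ℕ) (q a y : ℕ) : ℝ :=
  ∑ k ∈ (Icc 1 y).filter (fun k => p (k * n) ≤ y ∧ p (k * n) ≡ a [MOD q] ∧ ∀ i, (p (k * n) + 2 * h i).Prime), w k

open Classical in
/-- the sum of `w k / ∏ (V z · log (p_{kn} + 2 h i))` over the `k ≥ 1` with `p_{kn} ≤ y`, `p_{kn} ≡ a mod q`, for which no
prime `l ≤ z` divides any of the numbers `p_{kn} + 2 h i` -/
noncomputable def modelSum {r : ℕ} (n z : ℕ) (w : ℕ → ℝ) (h : Fin r → ℕ) (q a y : ℕ) : ℝ :=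
  ∑ k ∈ (Icc 1 y).filter (fun k => p (k * n) ≤ y ∧ p (k * n) ≡ a [MOD q] ∧
    ∀ i, ∀ l : ℕ, l.Prime → l ≤ z → ¬ l ∣ p (k * n) + 2 * h i),
    w k * ∏ i, (V z * Real.log ((p (k * n) + 2 * h i : ℕ) : ℝ))⁻¹

open Classical in
/-- **The theorem.** For all `r`, `B`, `U`, `D`, `K` there is `B₀` such that for every `E`, every large `X`, every
integer `z` with `log ^ B₀ X ≤ z ≤ log ^ E X` and EVERY family of weights `w n` with `|w n k| ≤ 1`: for all but at most
`X ^ r / log ^ U X` of the vectors `h` of integers `1 ≤ h i ≤ B X`, one has for ALL `n ≥ 1`, all `y ≤ X`, all moduli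
`1 ≤ q ≤ log ^ K X` and all classes `a` that `primeSum n (w n) h q a y` and `modelSum n z (w n) h q a y` differ by at most
`X / log ^ D X`. -/
theorem result (r B U D K : ℕ) :
    ∃ B₀ : ℕ, ∀ E : ℕ, ∃ X₀ : ℕ, ∀ X : ℕ, X₀ ≤ X → ∀ z : ℕ, Real.log X ^ B₀ ≤ z → (z : ℝ) ≤ Real.log X ^ E →
    ∀ w : ℕ → ℕ → ℝ, (∀ n k, |w n k| ≤ 1) →
    (((Fintype.piFinset (fun _ : Fin r => Icc 1 (B * X))).filter (fun h =>
      ∃ n : ℕ, 1 ≤ n ∧ ∃ y ≤ X, ∃ q a : ℕ, 1 ≤ q ∧ (q : ℝ) ≤ Real.log X ^ K ∧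
        (X : ℝ) / Real.log X ^ D < |primeSum n (w n) h q a y - modelSum n z (w n) h q a y|)).card : ℝ) ≤
      (X : ℝ) ^ r / Real.log X ^ U := by
  obtain ⟨B₀, h0⟩ := Pool.Agent.U918.LP.all_seqs r B U D K
  refine ⟨B₀, fun E => ?_⟩
  obtain ⟨x0, hx0⟩ := h0 E
  refine ⟨x0, fun X hX z hz1 hz2 w hw => ?_⟩
  exact hx0 X hX z hz1 hz2 (fun n k => p (k * n))
    (fun n hn a b ha hab => Pool.Agent.U918.LP.pr_lt (a * n) (b * n) (Nat.mul_pos ha hn)
      (Nat.mul_lt_mul_of_pos_right hab hn))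
    (fun n k hn hk => by
      have h1 : k * n < p (k * n) := Pool.Agent.U918.LP.pr_ge (k * n) (Nat.mul_pos hk hn)
      have h2 : k ≤ k * n := Nat.le_mul_of_pos_right k hn
      have h3 : n * k = k * n := Nat.mul_comm n k
      constructor
      · omega
      · rw [h3]
        exact h1.le) w hw

end Pool.Agent.Results.MP_be93de_nt.ArbitraryWeights
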