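import Pool.Agent.U847.XH
import Pool.Agent.U847.XW
import Pool.Agent.U847.XK
import Pool.Agent.N625.PT.X8
import Pool.Agent.Y877.SxI

/-!
# The number of the `k` in a dense set such that `p_{k n + a} + N` is prime, for almost all `n`, all offsets `a = a(n) ≤ n` and
almost all multiples `N` of the integers whose digits form nested words

The even numbers `N = h M (c + κ v)`, where `M` is the product of the primes `≤ y` and `v` runs over the integers whose `d` digits form a correctly nested word of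
matching brackets and neutral digits. This set of integers is given by a context-free grammar; it is not automatic, and it
can contain as few as `N ^ ε` integers below `N`.

From Mathlib: `Nat.nth Nat.Prime`: the sequence of the primes; `primorial y`: the product of the primes `≤ y`;
`Finset.Icc 1 x`: the integers from `1` to `x`; `s ×ˢ t`: the product of two finite sets.

Method: exponential sums over the nested words: the last letters of random nested words are replaced by pairs of brackets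
(starting files, `Pool.Agent.N625.DY`). New here: the decay is exponential in the number of the digits where the frequency is
not extremal, for all the fractions with a denominator free of small primes (`Pool.Agent.U847.XC`), it gives the sieve with
error terms smaller than all powers of `d` (`Pool.Agent.U847.XD`), the second moment and the number of the primes in random
translates of dense sequences (`Pool.Agent.U847.XG`). The proofs of these steps are those of the starting files `Pool.Agent.N625.PT.X2` - `X15` (integers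
with exchangeable blocks of digits), with the class of distributions replaced.
-/

set_option autoImplicit false

namespace Pool.Agent.Results.MP_be93de_nt.NestedWordShifts

open Finset

/-- `P` is a set of pairs of an opening digit and a closing digit which match each other, `E` is a set of neutral
digits; the digits are smaller than `b`, no digit plays two of the three roles, and there is at least one pair.
(An opening digit can match several closing digits, and conversely.) -/
structure Alphabet (b : ℕ) (P : Finset (ℕ × ℕ)) (E : Finset ℕ) : Prop where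
  lt : ∀ p ∈ P, p.1 < b ∧ p.2 < b
  ne : ∀ p ∈ P, ∀ p' ∈ P, p.1 ≠ p'.2
  neutral : ∀ a ∈ E, a < b ∧ ∀ p ∈ P, a ≠ p.1 ∧ a ≠ p.2
  nonempty : P.Nonempty

/-- The correctly nested words: the empty word; a neutral digit followed by a correctly nested word; and `o u c w`,
where `u` and `w` are correctly nested words and the opening digit `o` matches the closing digit `c`. -/
inductive Balanced (P : Finset (ℕ × ℕ)) (E : Finset ℕ) : List ℕ → Prop
  | nil : Balanced P E []
  | neutral (a : ℕ) (w : List ℕ) : a ∈ E → Balanced P E w → Balanced P E (a :: w)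
  | pair (o c : ℕ) (u w : List ℕ) : (o, c) ∈ P → Balanced P E u → Balanced P E w → Balanced P E (o :: (u ++ c :: w))

open Classical in
/-- The integers `v < b ^ k` whose `k` digits in base `b`, from the most significant to the least significant one (the
digit number `i`, `0 ≤ i < k`, from the left is `v / b ^ (k - 1 - i) % b`), form a correctly nested word. -/
noncomputable def brackets (b : ℕ) (P : Finset (ℕ × ℕ)) (E : Finset ℕ) (k : ℕ) : Finset ℕ :=
  (range (b ^ k)).filter fun v => Balanced P E ((List.range k).map fun i => v / b ^ (k - 1 - i) % b)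

/-- the product of `1 - 1/q` over the primes `q ≤ y` -/
noncomputable def V (y : ℕ) : ℝ := ∏ q ∈ (Icc 1 y).filter Nat.Prime, (1 - 1 / (q : ℝ))

/-- the multiple of the product of the primes `≤ y` given by the integers `h` and `c + κ v` -/
def Nv (y h : ℕ) (c κ : ℤ) (v : ℕ) : ℤ := ((primorial y * h : ℕ) : ℤ) * (c + κ * v)

/-- the `n`-th prime, `n ≥ 1` -/
noncomputable def p (n : ℕ) : ℕ := Nat.nth Nat.Prime (n - 1)

/-- the `k ∈ K` such that `p_{k n + a} + N` is prime -/
noncomputable def Good (K : Finset ℕ) (n a : ℕ) (N : ℤ) : Finset ℕ := K.filter (fun k : ℕ => (N + (p (k * n + a) : ℕ)).toNat.Prime)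

/-- if `N > 0`, then the number of the `k ∈ K` such that `p_{k n + a} + N` is prime is `#K / L` up to a relative error of at
most `ε` -/
def Fine (ε L : ℝ) (K : Finset ℕ) (n a : ℕ) (N : ℤ) : Prop :=
  0 < N → |((Good K n a N).card : ℝ) - K.card / L| ≤ ε * (K.card / L)

lemma p_inj (x n a : ℕ) (hn : 1 ≤ n) : Set.InjOn (fun k => p (k * n + a)) (Icc 1 x : Finset ℕ) := by
  intro k hk l hl hkl
  rw [mem_coe, mem_Icc] at hk hl
  simp only at hkl
  have h1 := Nat.nth_injective Nat.infinite_setOfPred_prime hkl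
  have e1 : 1 ≤ k * n := Nat.mul_pos (by omega) (by omega)
  have e2 : 1 ≤ l * n := Nat.mul_pos (by omega) (by omega)
  have h2 : k * n = l * n := by omega
  exact Nat.eq_of_mul_eq_mul_right (by omega) h2

lemma bal_iff (P : Finset (ℕ × ℕ)) (E : Finset ℕ) (w : List ℕ) : Balanced P E w ↔ Pool.Agent.N625.DY.Balanced P E w := by
  constructor
  · intro h
    induction h with
    | nil => exact .nil
    | neutral a w h1 _ ih => exact .neutral a w h1 ih
    | pair o c u w h1 _ _ ih1 ih2 => exact .pair o c u w h1 ih1 ih2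
  · intro h
    induction h with
    | nil => exact .nil
    | neutral a w h1 _ ih => exact .neutral a w h1 ih
    | pair o c u w h1 _ _ ih1 ih2 => exact .pair o c u w h1 ih1 ih2

lemma brackets_eq (b : ℕ) (P : Finset (ℕ × ℕ)) (E : Finset ℕ) (k : ℕ) :
    brackets b P E k = Pool.Agent.N625.DY.brackets b P E k := by
  classical
  unfold brackets Pool.Agent.N625.DY.brackets Pool.Agent.N625.DY.word
  ext v
  rw [mem_filter, mem_filter, bal_iff]

open Classical in
/-- the law for classes of distributions -/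
theorem main (b q₀ : ℕ) (hb : 2 ≤ b) (Cl : ℕ → (ℕ → ℝ) → Prop) (hC : Pool.Agent.U847.XP.SCls b q₀ Cl)
    (κ : ℤ) (hκ : κ ≠ 0) (B J C K₁ : ℕ) (θ : ℝ) (hθ : 0 < θ) (ε : ℝ) (hε : 0 < ε) (hε1 : ε ≤ 1) :
    ∃ d₀ : ℕ, ∀ d : ℕ, d₀ ≤ d → ∀ μ : ℕ → ℝ, Cl d μ →
    ∀ y : ℕ, θ * Real.log d ≤ y → y ≤ K₁ * Real.log d → ∀ c : ℤ, |c| ≤ B * (b : ℤ) ^ d →
    ∀ A H : ℕ, A ≤ d ^ J → H ≤ d ^ J → ∀ a : ℕ → ℕ, (∀ n, a n ≤ n) → ∀ x : ℕ, b ^ d ≤ x * d ^ C → x ≤ b ^ d * d ^ C →
    ∀ K : Finset ℕ, K ⊆ Icc 1 x → (x : ℝ) ≤ K.card * (d : ℝ) ^ J →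
      ∑ v ∈ range (b ^ d), (if (((((Icc 1 A) ×ˢ (Icc 1 H)).filter (fun w : ℕ × ℕ =>
        ¬ Fine ε (V y * (d * Real.log b)) K w.1 (a w.1) (Nv y w.2 c κ v))).card : ℝ) ≤ ε * (A * H))
        then 0 else μ v) ≤ ε := by
  classical
  have hε2 : ε ^ 2 ≤ ε := by nlinarith
  obtain ⟨k₀, h0⟩ := Pool.Agent.U847.XP.law2P b q₀ hb Cl hC κ hκ B J (2 * J + 5) (C + J + 5) K₁ θ hθ (ε ^ 2) (by positivity)
    (hε2.trans hε1)
  obtain ⟨k₁, h1⟩ := Pool.Agent.N625.PT.X_large b C hb
  obtain ⟨k₂, h2⟩ := Pool.Agent.N625.PT.log_X b (C + J + 1) hb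
  obtain ⟨n4, hn4⟩ := Pool.Agent.Y877.SX.nth_le_log
  refine ⟨max (max k₀ k₁) (max k₂ (max n4 3)), fun d hd μ hμ y hy1 hy2 c hc A H hA hH a ha x hx1 hx2 K hK hKd => ?_⟩
  have b0 : 3 ≤ d := by omega
  have hdr : (3 : ℝ) ≤ d := by exact_mod_cast b0
  have hd0 : (0 : ℝ) < d := by linarith
  have hdx := h1 d (by omega) x hx1
  have hVy : 0 < V y := Pool.Agent.H373R2.T7.Vz_pos y
  have hlogb : 0 < Real.log b := Real.log_pos (by exact_mod_cast (by omega : 1 < b))
  have hL0 : 0 < V y * (d * Real.log b) := by positivity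
  have hw0 : ∀ v : ℕ, 0 ≤ μ v := hC.nonneg _ _ hμ
  have hKc : K.card ≤ x := by
    have := card_le_card hK
    rwa [Nat.card_Icc, Nat.add_sub_cancel] at this
  have key : ∀ w ∈ (Icc 1 A) ×ˢ (Icc 1 H), ∑ v ∈ range (b ^ d),
      (if ¬ Fine ε (V y * (d * Real.log b)) K w.1 (a w.1) (Nv y w.2 c κ v) then μ v else 0) ≤ ε ^ 2 := by
    rintro ⟨n, h⟩ hw
    rw [mem_product, mem_Icc, mem_Icc] at hw
    obtain ⟨⟨hn1, hn2⟩, hh1, hh2⟩ := hw
    simp only at hn1 hn2 hh1 hh2
    obtain ⟨S, hS⟩ : ∃ S, S = K.image (fun k => p (k * n + a n)) := ⟨_, rfl⟩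
    have hinj : Set.InjOn (fun k => p (k * n + a n)) (K : Set ℕ) := (p_inj x n (a n) hn1).mono (by exact_mod_cast hK)
    have hScard : S.card = K.card := by rw [hS]; exact card_image_of_injOn hinj
    obtain ⟨m, hm⟩ : ∃ m, m = x * A := ⟨_, rfl⟩
    have hA1 : 1 ≤ A := by omega
    have hmx : x ≤ m := by rw [hm]; exact Nat.le_mul_of_pos_right _ hA1
    have hm2 : m ≤ b ^ d * d ^ (C + J + 1) := by
      calc m = x * A := hm
        _ ≤ (b ^ d * d ^ C) * d ^ J := Nat.mul_le_mul hx2 hA
        _ = b ^ d * d ^ (C + J) := by rw [mul_assoc, ← pow_add]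
        _ ≤ _ := Nat.mul_le_mul_left _ (Nat.pow_le_pow_right (by omega) (by omega))
    have hlog := h2 d (by omega) m hm2
    have hl0 : 0 ≤ Real.log m := Real.log_natCast_nonneg m
    have hm0 : (0 : ℝ) ≤ m := Nat.cast_nonneg m
    have hp : ∀ k ∈ K, p (k * n + a n) ≤ m * d ^ 4 := by
      intro k hk
      have hk' := mem_Icc.1 (hK hk)
      have e1 : k * n ≤ x * A := Nat.mul_le_mul hk'.2 hn2
      have e2 : a n ≤ x * A := (ha n).trans (hn2.trans (Nat.le_mul_of_pos_left _ (by omega)))
      have g1 : ((p (k * n + a n) : ℕ) : ℝ) ≤ m * (d : ℝ) ^ 4 := by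
        refine (hn4 m (by omega) (k * n + a n - 1) (by omega)).trans ?_
        apply mul_le_mul_of_nonneg_left _ hm0
        calc Real.log m ^ 2 ≤ ((d : ℝ) ^ 2) ^ 2 := pow_le_pow_left₀ hl0 hlog _
          _ = (d : ℝ) ^ 4 := by rw [← pow_mul]
      exact_mod_cast g1
    have hX1 : b ^ d ≤ (m * d ^ 4) * d ^ (C + J + 5) := by
      calc b ^ d ≤ x * d ^ C := hx1
        _ ≤ m * d ^ C := Nat.mul_le_mul_right _ hmx
        _ ≤ m * d ^ (4 + (C + J + 5)) := Nat.mul_le_mul_left _ (Nat.pow_le_pow_right (by omega) (by omega))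
        _ = _ := by rw [mul_assoc, ← pow_add]
    have hX2 : m * d ^ 4 ≤ b ^ d * d ^ (C + J + 5) := by
      calc m * d ^ 4 ≤ (b ^ d * d ^ (C + J + 1)) * d ^ 4 := Nat.mul_le_mul_right _ hm2
        _ = _ := by rw [mul_assoc, ← pow_add]
    have hS1 : S ⊆ Icc 1 (m * d ^ 4) := by
      intro s hs
      rw [hS, mem_image] at hs
      obtain ⟨k, hk, rfl⟩ := hs
      rw [mem_Icc]
      exact ⟨(Nat.prime_nth_prime _).pos, hp k hk⟩
    have hS2 : ∀ s ∈ S, s.Prime := by
      intro s hs
      rw [hS, mem_image] at hs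
      obtain ⟨k, hk, rfl⟩ := hs
      exact Nat.prime_nth_prime _
    have hS3 : ((m * d ^ 4 : ℕ) : ℝ) ≤ S.card * (d : ℝ) ^ (2 * J + 5) := by
      rw [hScard, hm]
      push_cast
      have hAr : (A : ℝ) ≤ (d : ℝ) ^ J := by exact_mod_cast hA
      have hx0 : (0 : ℝ) ≤ x := Nat.cast_nonneg x
      calc (x : ℝ) * A * (d : ℝ) ^ 4 ≤ (K.card * (d : ℝ) ^ J) * (d : ℝ) ^ J * (d : ℝ) ^ 4 := by gcongr
        _ = K.card * (d : ℝ) ^ (2 * J + 4) := by rw [mul_assoc, mul_assoc, ← pow_add, ← pow_add]; congr 2; omega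
        _ ≤ _ := mul_le_mul_of_nonneg_left (pow_le_pow_right₀ (by linarith) (by omega)) (Nat.cast_nonneg _)
    have h5 := h0 d (by omega) μ hμ y hy1 hy2 c hc h hh1 (hh2.trans hH) (m * d ^ 4) hX1 hX2 S hS1 hS2 hS3 1 (Or.inl rfl)
    refine le_trans (sum_le_sum fun v _ => ?_) h5
    by_cases hq : Fine ε (V y * (d * Real.log b)) K n (a n) (Nv y h c κ v)
    · rw [if_neg (not_not.2 hq)]
      split_ifs
      · exact hw0 v
      · exact le_rfl
    · rw [if_pos hq, if_pos]
      unfold Fine at hq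
      push Not at hq
      obtain ⟨q1, q2⟩ := hq
      refine ⟨fun s _ => ?_, ?_⟩
      · have e0 : (0 : ℤ) ≤ (s : ℤ) := Int.natCast_nonneg s
        have e1 : Pool.Agent.N625.PT.Nm y h c κ v = Nv y h c κ v := rfl
        rw [e1]
        linarith
      · have e1 : (S.filter (fun s : ℕ => (Pool.Agent.N625.PT.Nm y h c κ v + 1 * (s : ℕ)).toNat.Prime)).card =
            (Good K n (a n) (Nv y h c κ v)).card := by
          rw [hS, filter_image, card_image_of_injOn (hinj.mono (by
            intro i hi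
            rw [mem_coe, mem_filter] at hi
            exact_mod_cast hi.1))]
          unfold Good
          congr 1
          apply filter_congr
          intro k _
          rw [one_mul]
          rfl
        rw [e1, hScard]
        refine lt_of_le_of_lt ?_ q2
        apply mul_le_mul_of_nonneg_right hε2
        exact div_nonneg (Nat.cast_nonneg _) hL0.le
  rcases Nat.eq_zero_or_pos (A * H) with hAH | hAH
  · refine le_trans (le_of_eq (sum_eq_zero fun v _ => ?_)) hε.le
    rw [if_pos]
    have e1 : (Icc 1 A) ×ˢ (Icc 1 H) = (∅ : Finset (ℕ × ℕ)) := by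
      rw [← card_eq_zero, card_product, Nat.card_Icc, Nat.card_Icc, Nat.add_sub_cancel, Nat.add_sub_cancel]
      exact hAH
    rw [e1, filter_empty, card_empty, Nat.cast_zero]
    positivity
  · have hAHr : (0 : ℝ) < A * H := by exact_mod_cast hAH
    refine le_trans (le_of_eq ?_) (Pool.Agent.U847.XK.markov _ μ hw0 (hC.sum _ _ hμ).le ((Icc 1 A) ×ˢ (Icc 1 H)) ∅
      (fun w v => ¬ Fine ε (V y * (d * Real.log b)) K w.1 (a w.1) (Nv y w.2 c κ v)) 0 (ε ^ 2) (ε * (A * H)) ε (by simp)
      (by positivity) (fun w hw _ => le_trans (le_of_eq (by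
        apply sum_congr rfl
        intro v _
        congr!)) (key w hw)) (by positivity) ?_)
    · apply sum_congr rfl
      intro v _
      congr!
    · rw [card_product, Nat.card_Icc, Nat.card_Icc, Nat.add_sub_cancel, Nat.add_sub_cancel]
      push_cast
      apply le_of_eq
      ring

open Classical in
/-- Let `P`, `E` be an alphabet of matching brackets and neutral digits in base `b`, and let `d` be large. Let `κ ≠ 0`, `B`, `J`, `C`, `K₁`, `θ > 0` and `0 < ε ≤ 1` be fixed, let `y` be between `θ log d` and `K₁ log d` (`θ > 0`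
is arbitrary), `M` the product of the primes `≤ y`, `|c| ≤ B b ^ d`, let `A, H ≤ d ^ J`, let `0 ≤ a(n) ≤ n` be arbitrary
offsets (for example `a(n) = 0` for all `n`), let `x` be any integer with `b ^ d ≤ x d ^ C`, `x ≤ b ^ d d ^ C`, and let `K` be
ANY set of at least `x / d ^ J` integers `1 ≤ k ≤ x` (for example the set of all of them). Then for all the integers `v` whose `d` digits in base `b` form a correctly nested word, with the exception of a proportion of
at most `ε` of these integers: for all but at most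
`ε A H` of the pairs `(n, h)`, `1 ≤ n ≤ A`, `1 ≤ h ≤ H`: if `N = h M (c + κ v) > 0`, then the number of the `k ∈ K` such that
`p_{k n + a(n)} + N` is prime differs from `#K / (V y log b ^ d)` by at most `ε #K / (V y log b ^ d)`. -/
theorem result (b : ℕ) (P : Finset (ℕ × ℕ)) (E : Finset ℕ) (hA : Alphabet b P E) (κ : ℤ) (hκ : κ ≠ 0) (B J C K₁ : ℕ) (θ : ℝ) (hθ : 0 < θ) (ε : ℝ) (hε : 0 < ε) (hε1 : ε ≤ 1) :
    ∃ d₀ : ℕ, ∀ d : ℕ, d₀ ≤ d →
    ∀ y : ℕ, θ * Real.log d ≤ y → y ≤ K₁ * Real.log d → ∀ c : ℤ, |c| ≤ B * (b : ℤ) ^ d →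
    ∀ A H : ℕ, A ≤ d ^ J → H ≤ d ^ J → ∀ a : ℕ → ℕ, (∀ n, a n ≤ n) → ∀ x : ℕ, b ^ d ≤ x * d ^ C → x ≤ b ^ d * d ^ C →
    ∀ K : Finset ℕ, K ⊆ Icc 1 x → (x : ℝ) ≤ K.card * (d : ℝ) ^ J →
      (((brackets b P E d).filter fun v => ¬ (((((Icc 1 A) ×ˢ (Icc 1 H)).filter (fun w : ℕ × ℕ =>
        ¬ Fine ε (V y * (d * Real.log b)) K w.1 (a w.1) (Nv y w.2 c κ v))).card : ℝ) ≤ ε * (A * H))).card : ℝ) ≤ ε * (brackets b P E d).card := by
  have hA' : Pool.Agent.N625.DY.Alphabet b P E := ⟨hA.lt, hA.ne, hA.neutral, hA.nonempty⟩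
  have hb : 2 ≤ b := Pool.Agent.N625.DY.two_le hA'
  obtain ⟨d₀, h0⟩ := main b _ hb _ (Pool.Agent.U847.XP.br_scls hA') κ hκ B J C K₁ θ hθ ε hε hε1
  refine ⟨d₀ + 1, fun d hd y hy1 hy2 c hc A H hA hH a ha x hx1 hx2 K hK hKd => ?_⟩
  have key := Pool.Agent.U847.XW.br_num hA' (k := d) (fun v : ℕ => ¬ (((((Icc 1 A) ×ˢ (Icc 1 H)).filter (fun w : ℕ × ℕ =>
        ¬ Fine ε (V y * (d * Real.log b)) K w.1 (a w.1) (Nv y w.2 c κ v))).card : ℝ) ≤ ε * (A * H))) (ε := ε)
    (fun p hp => by
      refine le_trans (le_of_eq ?_) (h0 d (by omega) p hp y hy1 hy2 c hc A H hA hH a ha x hx1 hx2 K hK hKd)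
      apply sum_congr rfl
      intro v _
      split_ifs <;> rfl)
  simp only [brackets_eq]
  refine le_trans (le_of_eq ?_) key
  congr!

end Pool.Agent.Results.MP_be93de_nt.NestedWordShifts
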