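import Pool.Agent.U331.MW.Exp
import Pool.Agent.Results.MP_be93de_nt.NestedWordShifts

/-!
# The number of the `k` in a dense set such that `p_{k n + a} + N` is prime, for almost all `n`, all offsets `a = a(n) ≤ n` and
almost all multiples `N` of random integers with exchangeable pairs of opposite digits (palindromes, for example)

The even numbers are `N = h M (c + κ v)`, where `M` is the product of the primes `≤ y` and the `v` are random
integers with exchangeable pairs of opposite digits (`Mirror`): the digit number `i` from the left may determine the digit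
number `i` from the right, and conversely. The sum over `v` in the
theorem is the probability that `v` does not have the property.

From Mathlib: `Nat.nth Nat.Prime`: the sequence of the primes; `primorial y`: the product of the primes `≤ y`;
`Finset.Icc 1 x`: the integers from `1` to `x`; `s ×ˢ t`: the product of two finite sets.

Method. New here: the exponential sums over such random integers. An exchange of a pair of opposite digits changes `v` by
`P b ^ (k - 1 - i) + Q b ^ i` with `P, Q ≠ 0`; if the products of a frequency with these numbers are close to integers for two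
neighbouring pairs, then they determine the products with `(b ^ 4)! b ^ i` and `(b ^ 4)! b ^ (k - 2 - i)` modulo `1`. So the
exponential sum decays exponentially in the number of the positions at which the frequency, multiplied with `(b ^ 4)!`, is
far from the integers (`Pool.Agent.U331.MW`). The passage from such a decay to the sieve, to the second moment and to the
number of the primes in random translates is helper847's (`Pool.Agent.U847.XP.SCls`, generic in the class of distributions,
after the starting files `Pool.Agent.N625.PT.X2` - `X12`),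
and the law for the shifted primes is his `Pool.Agent.Results.MP_be93de_nt.NestedWordShifts.main`.
-/

set_option autoImplicit false

namespace Pool.Agent.Results.MP_be93de_nt.MirrorShifts

open Finset

/-- The integer whose digits in base `b` are the `i` digits of `u < b ^ i`, the `m` digits of `w < b ^ m` and the `i` digits of
`u' < b ^ i`, one after the other, from the most significant to the least significant one. -/
def frame (b m i u u' w : ℕ) : ℕ := u * b ^ (m + i) + (w * b ^ i + u')

/-- The probability, for the distribution `μ`, that the word of `m + 2 i` digits begins with the `i` digits of `u` and ends with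
the `i` digits of `u'`. -/
noncomputable def outer (b : ℕ) (μ : ℕ → ℝ) (m i u u' : ℕ) : ℝ := ∑ w ∈ range (b ^ m), μ (frame b m i u u' w)

/-- `p` is a probability on the words of `k` digits in base `b`, read as integers `v < b ^ k`. There is another probability
`μ` with `p ≤ k ^ T μ` such that, whatever the first `i` digits `u` and the last `i` digits `u'` are (`m + 2 (i + 1) = k`), two
different pairs `(a, a')` and `(c, c')`, `a ≠ c`, `a' ≠ c'`, of the next digit from the left and the next digit from the right
can be exchanged: `p (u a w a' u') = r p (u c w c' u')` for all the words `w` of `m` digits, with a factor `r` between `η` and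
`1 / η` which does not depend on `w`; and given `u` and `u'`, each of the two pairs comes next with a probability of at least
`η` in the distribution `μ`. (No digit alone needs to be exchangeable. Example: the uniform distribution on the palindromic
words, `T = 0`, `μ = p`, `η = 1 / b`, `r = 1`.) -/
structure Mirror (b : ℕ) (η : ℝ) (T k : ℕ) (p : ℕ → ℝ) : Prop where
  nonneg : ∀ v, 0 ≤ p v
  sum : ∑ v ∈ range (b ^ k), p v = 1
  dominated : ∃ μ : ℕ → ℝ, (∀ v, 0 ≤ μ v) ∧ ∑ v ∈ range (b ^ k), μ v = 1 ∧ (∀ v < b ^ k, p v ≤ (k : ℝ) ^ T * μ v) ∧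
    ∀ i m u u' : ℕ, m + 2 * (i + 1) = k → u < b ^ i → u' < b ^ i → ∃ (a a' c c' : ℕ) (r : ℝ),
      (a < b ∧ a' < b ∧ c < b ∧ c' < b) ∧ a ≠ c ∧ a' ≠ c' ∧ η ≤ r ∧ η * r ≤ 1 ∧
      (∀ w < b ^ m, p (frame b m (i + 1) (b * u + a) (a' * b ^ i + u') w) =
        r * p (frame b m (i + 1) (b * u + c) (c' * b ^ i + u') w)) ∧
      η * outer b μ (m + 2) i u u' ≤ outer b μ m (i + 1) (b * u + a) (a' * b ^ i + u') ∧
      η * outer b μ (m + 2) i u u' ≤ outer b μ m (i + 1) (b * u + c) (c' * b ^ i + u')

lemma conv {b : ℕ} {η : ℝ} {T k : ℕ} {p : ℕ → ℝ} (h : Mirror b η T k p) : Pool.Agent.U331.MW.Mirror b η T k p :=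
  ⟨h.nonneg, h.sum, h.dominated⟩

/-- the `n`-th prime, `n ≥ 1` -/
noncomputable def p (n : ℕ) : ℕ := Nat.nth Nat.Prime (n - 1)

/-- the product of `1 - 1/q` over the primes `q ≤ y` -/
noncomputable def V (y : ℕ) : ℝ := ∏ q ∈ (Icc 1 y).filter Nat.Prime, (1 - 1 / (q : ℝ))

/-- the multiple of the product of the primes `≤ y` given by the integers `h` and `c + κ v` -/
def Nv (y h : ℕ) (c κ : ℤ) (v : ℕ) : ℤ := ((primorial y * h : ℕ) : ℤ) * (c + κ * v)

/-- the `k ∈ K` such that `p_{k n + a} + N` is prime -/
noncomputable def Good (K : Finset ℕ) (n a : ℕ) (N : ℤ) : Finset ℕ := K.filter (fun k : ℕ => (N + (p (k * n + a) : ℕ)).toNat.Prime)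

/-- if `N > 0`, then the number of the `k ∈ K` such that `p_{k n + a} + N` is prime is `#K / L` up to a relative error of at
most `ε` -/
def Fine (ε L : ℝ) (K : Finset ℕ) (n a : ℕ) (N : ℤ) : Prop :=
  0 < N → |((Good K n a N).card : ℝ) - K.card / L| ≤ ε * (K.card / L)

open Classical in
/-- Let `b ≥ 2`, `0 < η ≤ 1`, `T`, `κ ≠ 0`, `B`, `J`, `C`, `K₁`, `θ > 0` and `0 < ε ≤ 1` be fixed and let `d` be large. Let `μ` be a
distribution on the words of `d` digits in base `b` with `Mirror b η T d μ`, let `y` be between `θ log d` and `K₁ log d`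
(`θ > 0` is arbitrary), `M` the product of the primes `≤ y`, `|c| ≤ B b ^ d`, let `A, H ≤ d ^ J`, let `0 ≤ a(n) ≤ n` be
arbitrary offsets (for example `a(n) = 0` for all `n`), let `x` be any integer with `b ^ d ≤ x d ^ C`, `x ≤ b ^ d d ^ C`, and
let `K` be ANY set of at least `x / d ^ J` integers `1 ≤ k ≤ x` (for example the set of all of them). The random integer `v`
with the distribution `μ` has with a probability of at least `1 - ε` the property: for all but at most `ε A H` of the pairs
`(n, h)`, `1 ≤ n ≤ A`, `1 ≤ h ≤ H`: if `N = h M (c + κ v) > 0`, then the number of the `k ∈ K` such that `p_{k n + a(n)} + N`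
is prime differs from `#K / (V y log b ^ d)` by at most `ε #K / (V y log b ^ d)`. -/
theorem result (b : ℕ) (hb : 2 ≤ b) (η : ℝ) (hη0 : 0 < η) (hη1 : η ≤ 1) (T : ℕ) (κ : ℤ) (hκ : κ ≠ 0)
    (B J C K₁ : ℕ) (θ : ℝ) (hθ : 0 < θ) (ε : ℝ) (hε : 0 < ε) (hε1 : ε ≤ 1) :
    ∃ d₀ : ℕ, ∀ d : ℕ, d₀ ≤ d → ∀ μ : ℕ → ℝ, Mirror b η T d μ →
    ∀ y : ℕ, θ * Real.log d ≤ y → y ≤ K₁ * Real.log d → ∀ c : ℤ, |c| ≤ B * (b : ℤ) ^ d →
    ∀ A H : ℕ, A ≤ d ^ J → H ≤ d ^ J → ∀ a : ℕ → ℕ, (∀ n, a n ≤ n) → ∀ x : ℕ, b ^ d ≤ x * d ^ C → x ≤ b ^ d * d ^ C →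
    ∀ K : Finset ℕ, K ⊆ Icc 1 x → (x : ℝ) ≤ K.card * (d : ℝ) ^ J →
      ∑ v ∈ range (b ^ d), (if (((((Icc 1 A) ×ˢ (Icc 1 H)).filter (fun w : ℕ × ℕ =>
        ¬ Fine ε (V y * (d * Real.log b)) K w.1 (a w.1) (Nv y w.2 c κ v))).card : ℝ) ≤ ε * (A * H))
        then 0 else μ v) ≤ ε := by
  obtain ⟨d₀, h0⟩ := Pool.Agent.Results.MP_be93de_nt.NestedWordShifts.main b _ hb (Pool.Agent.U331.MW.Mirror b η T)
    (Pool.Agent.U331.MW.mir_scls b hb η hη0 hη1 T) κ hκ B J C K₁ θ hθ ε hε hε1
  exact ⟨d₀, fun d hd μ hμ => h0 d hd μ (conv hμ)⟩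

end Pool.Agent.Results.MP_be93de_nt.MirrorShifts
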